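import Pool.Agent.H469R3.LP.Final

/-!
# MP_45fd17_co: distinct leaf-to-leaf path lengths versus the degree-sequence radius

For every tree `T` with at least two vertices and no vertex of degree `2`, the number `lp T` of
distinct lengths of leaf-to-leaf paths is at least the smallest radius of a tree with the same
degree sequence.
-/

namespace Pool.Agent.Results.MP_45fd17_co.LeafPathRadius

open SimpleGraph

/-- the degree of a vertex -/
noncomputable def deg {n : ℕ} (T : SimpleGraph (Fin n)) (v : Fin n) : ℕ := (T.neighborSet v).ncard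

/-- the degree sequence (as a multiset) -/
noncomputable def degSeq {n : ℕ} (T : SimpleGraph (Fin n)) : Multiset ℕ :=
  Finset.univ.val.map (deg T)

/-- the number of distinct lengths of paths both of whose endpoints are leaves
(vertices of degree at most one); the trivial paths of length `0` are included -/
noncomputable def lp {n : ℕ} (T : SimpleGraph (Fin n)) : ℕ :=
  {l : ℕ | ∃ (u v : Fin n) (p : T.Walk u v),
    p.IsPath ∧ deg T u ≤ 1 ∧ deg T v ≤ 1 ∧ p.length = l}.ncard

/-- the smallest radius of a tree whose degree sequence is `s`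
(`SimpleGraph.radius` is the minimum eccentricity of a vertex) -/
noncomputable def rad (s : Multiset ℕ) : ℕ :=
  sInf {r : ℕ | ∃ (k : ℕ) (H : SimpleGraph (Fin k)), H.IsTree ∧ degSeq H = s ∧ H.radius = (r : ℕ∞)}

open Pool.Agent.H469R3.LP

lemma rad_le {k : ℕ} {s : Multiset ℕ} (H : SimpleGraph (Fin k)) (hH : H.IsTree)
    (hs : degSeq H = s) (v : Fin k) (j : ℕ) (hj : ∀ w, H.dist v w ≤ j) : rad s ≤ j := by
  have h1 : H.eccent v ≤ (j : ℕ∞) := by
    rw [SimpleGraph.eccent_le_iff]
    intro w
    rw [← (hH.connected v w).coe_dist_eq_edist]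
    exact_mod_cast hj w
  have h2 : H.radius ≤ (j : ℕ∞) := (SimpleGraph.radius_le_eccent (u := v)).trans h1
  have h3 : H.radius ≠ ⊤ := ne_top_of_le_ne_top (ENat.natCast_ne_top j) h2
  obtain ⟨r, hr⟩ := ENat.ne_top_iff_exists.1 h3
  have h4 : r ≤ j := by rw [← hr] at h2; exact_mod_cast h2
  have h5 : r ∈ {r : ℕ | ∃ (k : ℕ) (H : SimpleGraph (Fin k)),
      H.IsTree ∧ degSeq H = s ∧ H.radius = (r : ℕ∞)} := ⟨k, H, hH, hs, hr.symm⟩
  exact (Nat.sInf_le h5).trans h4

lemma lp_eq {n : ℕ} {T : SimpleGraph (Fin n)} (hT : T.IsTree) : lp T = (LD T).card := by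
  unfold lp
  rw [← Set.ncard_coe_finset]
  congr 1
  ext l
  constructor
  · rintro ⟨u, v, p, hp, hu, hv, rfl⟩
    rw [path_len hT p hp]
    exact mem_LD ((mem_leaves u).2 hu) ((mem_leaves v).2 hv)
  · intro hl
    obtain ⟨⟨u, v⟩, huv, rfl⟩ := Finset.mem_image.1 (Finset.mem_coe.1 hl)
    rw [Finset.mem_product] at huv
    obtain ⟨p, hp, _⟩ := hT.existsUnique_path u v
    exact ⟨u, v, p, hp, (mem_leaves u).1 huv.1, (mem_leaves v).1 huv.2, path_len hT p hp⟩

theorem result : ∀ (n : ℕ) (T : SimpleGraph (Fin n)), 2 ≤ n → T.IsTree →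
    (∀ v, deg T v ≠ 2) → rad (degSeq T) ≤ lp T := by
  classical
  intro n T hn hT h2
  have h2' : ∀ v, dg T v ≠ 2 := h2
  rw [lp_eq hT]
  have hn0 : 0 < n := by omega
  have : Nonempty (Fin n × Fin n) := ⟨(⟨0, hn0⟩, ⟨0, hn0⟩)⟩
  obtain ⟨⟨x, y⟩, hmax0⟩ := Finite.exists_max (fun p : Fin n × Fin n => T.dist p.1 p.2)
  have hmax : ∀ u v, T.dist u v ≤ T.dist x y := fun u v => hmax0 (u, v)
  have hD1 : 1 ≤ T.dist x y := by
    have h01 : (⟨0, hn0⟩ : Fin n) ≠ ⟨1, by omega⟩ := by
      intro h; simp at h
    have h3 := hT.connected.pos_dist_of_ne h01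
    have h4 := hmax ⟨0, hn0⟩ ⟨1, by omega⟩
    omega
  have hne : x ≠ y := by
    intro h
    rw [h] at hD1
    simp at hD1
  have hxl : x ∈ leaves T := (mem_leaves x).2 (leaf_of_max hT hne (fun w => hmax w y))
  have h0 : 0 ∈ LD T := by
    have := mem_LD hxl hxl
    simpa using this
  by_cases hD : T.dist x y ≤ 1
  · have h5 := rad_le (s := degSeq T) T hT rfl x 1 (fun w => (hmax x w).trans hD)
    have h6 : 1 ≤ (LD T).card := Finset.card_pos.2 ⟨0, h0⟩
    omega
  push Not at hD
  -- the sorted degree sequence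
  set f : Fin n → ℕ := fun v => dg T v with hf
  set e : Equiv.Perm (Fin n) := Fin.revPerm.trans (Tuple.sort f) with he
  have hanti : ∀ i j : Fin n, i ≤ j → f (e j) ≤ f (e i) := by
    intro i j hij
    have := Tuple.monotone_sort f (Fin.rev_le_rev.2 hij)
    simpa [he] using this
  set d : ℕ → ℕ := fun r => if h : r < n then f (e ⟨r, h⟩) else 0 with hd
  have hdf : ∀ v : Fin n, d v.val = f (e v) := by
    intro v; simp [hd]
  have hdanti : Antitone d := by
    intro r s hrs
    simp only [hd]
    by_cases hs : s < n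
    · rw [dif_pos hs, dif_pos (by omega)]
      exact hanti _ _ (by simpa using hrs)
    · rw [dif_neg hs]; exact Nat.zero_le _
  have hfpos : ∀ v, 1 ≤ f v := by
    intro v
    obtain ⟨w, hw⟩ : ∃ w, w ≠ v := by
      by_cases hv : v = ⟨0, hn0⟩
      · refine ⟨⟨1, by omega⟩, ?_⟩
        rw [hv]; intro h; simp at h
      · exact ⟨⟨0, hn0⟩, fun h => hv h.symm⟩
    obtain ⟨p, hp, _⟩ := hT.existsUnique_path v w
    have hpn : ¬ p.Nil := fun h => hw h.eq.symm
    have hadj := p.adj_snd hpn
    simp only [hf]
    rw [dg_eq_card]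
    exact Finset.card_pos.2 ⟨p.snd, by simpa using hadj⟩
  have hsumf : ∑ v, f v = 2 * (n - 1) := by
    have h5 := T.sum_degrees_eq_twice_card_edges
    have h6 : ∀ v, T.degree v = f v := by
      intro v
      simp only [hf]
      unfold dg
      rw [← SimpleGraph.card_neighborSet_eq_degree, Set.ncard_eq_toFinset_card', Set.toFinset_card]
    rw [Finset.sum_congr rfl (fun v _ => h6 v)] at h5
    have h7 := hT.card_edgeFinset
    rw [Fintype.card_fin] at h7
    rw [h5]; omega
  have hsumd : ∑ r ∈ Finset.range n, d r = 2 * (n - 1) := by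
    rw [Finset.sum_range, ← hsumf, ← Equiv.sum_comp e f]
    exact Finset.sum_congr rfl (fun v _ => hdf v)
  have good : Good n d := ⟨hn, hdanti, by
    intro r hr
    have := hfpos (e ⟨r, hr⟩)
    rw [← hdf] at this
    exact this, hsumd⟩
  -- number of internal vertices
  have hex : ∃ r, d r ≤ 1 := ⟨n, by simp [hd]⟩
  set m := Nat.find hex with hm
  have hm_lt : ∀ r < m, 2 ≤ d r := by
    intro r hr
    have := Nat.find_min hex hr
    omega
  have hm_ge : ∀ r, m ≤ r → d r ≤ 1 := fun r hr => (hdanti hr).trans (Nat.find_spec hex)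
  have hmn : m ≤ n := Nat.find_min' hex (by simp [hd])
  have hm_lt3 : ∀ r < m, 3 ≤ d r := by
    intro r hr
    have h5 := hm_lt r hr
    have h6 : d r ≠ 2 := by
      have := h2' (e ⟨r, by omega⟩)
      have h7 : d r = dg T (e ⟨r, by omega⟩) := hdf ⟨r, by omega⟩
      rw [h7]; exact this
    omega
  have hm1 : 1 ≤ m := by
    by_contra hcon
    have hm0 : m = 0 := by omega
    -- all degrees are at most one
    have hall : ∀ v, f v ≤ 1 := by
      intro v
      have := hm_ge (e.symm v).val (by omega)
      rw [hdf] at this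
      simpa using this
    have : ∑ v, f v ≤ n := by
      calc ∑ v, f v ≤ ∑ _v : Fin n, 1 := Finset.sum_le_sum (fun v _ => hall v)
        _ = n := by simp
    rw [hsumf] at this
    have hn2 : n = 2 := by omega
    subst hn2
    -- distance at most one in a tree with two vertices
    have hdist : T.dist x y ≤ 1 := by
      obtain ⟨p, hp, _⟩ := hT.existsUnique_path x y
      have h8 := hp.length_lt
      rw [Fintype.card_fin] at h8
      exact (SimpleGraph.dist_le p).trans (by omega)
    omega
  -- the bound on sums of degrees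
  have hGU : ∀ U : Finset (Fin n), ∑ v ∈ U, (dg T v - 2) ≤ GG d U.card := by
    intro U
    have hinj : Function.Injective (fun v : Fin n => (e.symm v).val) :=
      Fin.val_injective.comp e.symm.injective
    have h5 := sum_le_range (fun r => d r - 2) (fun r s hrs => Nat.sub_le_sub_right (hdanti hrs) 2)
      (U.image (fun v : Fin n => (e.symm v).val))
    rw [Finset.card_image_of_injective _ hinj, Finset.sum_image (fun a _ b _ h => hinj h)] at h5
    refine le_trans (le_of_eq ?_) h5
    apply Finset.sum_congr rfl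
    intro v _
    rw [hdf]; simp [hf]
  -- number of leaves
  have hleaves : (leaves T).card = 2 + GG d n := by
    have h5 : GG d n = ∑ v, (f v - 2) := by
      unfold GG
      rw [Finset.sum_range, ← Equiv.sum_comp e (fun v => f v - 2)]
      exact Finset.sum_congr rfl (fun v _ => by rw [hdf])
    have h6 : ∑ v, f v + (leaves T).card = ∑ v, (f v - 2) + 2 * n := by
      have h7 : (leaves T).card = ∑ v : Fin n, (if f v ≤ 1 then 1 else 0) := by
        unfold leaves
        rw [Finset.card_filter]
      rw [h7, ← Finset.sum_add_distrib]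
      have h8 : 2 * n = ∑ _v : Fin n, 2 := by simp [mul_comm]
      rw [h8, ← Finset.sum_add_distrib]
      apply Finset.sum_congr rfl
      intro v _
      have h9 := hfpos v
      have h10 : f v ≠ 2 := h2' v
      split_ifs with h <;> omega
    rw [hsumf] at h6
    rw [h5]; omega
  have hstep : ∀ k, k < m → GG d k + 1 ≤ GG d (k+1) := by
    intro k hk
    unfold GG
    rw [Finset.sum_range_succ]
    have := hm_lt3 k hk
    omega
  set L := ((LD T).erase 0).card with hL
  have hLcard : (LD T).card = L + 1 := by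
    rw [hL, Finset.card_erase_of_mem h0]
    have : 1 ≤ (LD T).card := Finset.card_pos.2 ⟨0, h0⟩
    omega
  have hmy : m ≤ yy (GG d) (L+1) := by
    by_contra hcon
    push Not at hcon
    have hdouble : ∀ j ≤ L, 2 * MM (GG d) j ≤ MM (GG d) (j+1) := by
      intro j hj
      apply MM_double hstep
      exact (yy_mono (GG d) (show j+1 ≤ L+1 by omega)).trans hcon.le
    have h5 := leaves_bound hT h2' (GG_mono d) hGU (fun j hj => hdouble j hj.le) hmax (by omega)
    rw [← hL, hleaves] at h5
    have h6 := hdouble L le_rfl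
    have h7 : MM (GG d) (L+1) = 2 + GG d (yy (GG d) (L+1)) := by simp [MM]
    have h8 := hstep _ hcon
    have h9 := GG_mono d (show yy (GG d) (L+1) + 1 ≤ n by omega)
    omega
  have hlev := lev_of_yy good hm1 hmn hm_lt hm_ge L hmy
  rw [hLcard]
  refine rad_le (GTree good) (isTree_GTree good) ?_ ⟨0, hn0⟩ (L+1)
    (fun w => dist_le_of_lev good hn0 (L+1) hlev w)
  -- same degree sequence
  unfold degSeq
  have h5 : ∀ v, deg (GTree good) v = deg T (e v) := by
    intro v
    have := dg_GTree good v
    rw [hdf] at this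
    exact this
  have h6 : (Finset.univ : Finset (Fin n)).val.map (deg (GTree good)) =
      ((Finset.univ : Finset (Fin n)).val.map e).map (deg T) := by
    rw [Multiset.map_map]
    exact Multiset.map_congr rfl (fun v _ => h5 v)
  rw [h6]
  congr 1
  simp

end Pool.Agent.Results.MP_45fd17_co.LeafPathRadius
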